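import Pool.Agent.Helper86_DA.Cc

/-!
A closed chain through every link (module S3).
-/

set_option autoImplicit false
set_option linter.unusedSectionVars false

namespace CLB.H86.H7

open Finset Classical
open H3DA (Q neg nr)
open CLB.H95
open CLB.H3 (OpenFalse)

variable {V : Type*} {G : SimpleGraph V} {R : V → Bool} {k : ℕ} {x y : ℕ → V}

/-- Extension at the left end; the old vertices stay in the chain. -/
lemma extL [Fintype V] (h : Chn G R k x y) (hG : ClassC G R) {w : V} (hw : Lk G R (x 1) w) :
    Lk G R (y k) (x 1) ∨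
      ∃ x' y', Chn G R (k + 1) x' y' ∧ ∀ u, InC k x y u → InC (k + 1) x' y' u := by
  by_cases hin : InC k x y w
  · left
    obtain ⟨i, h1, h2, rfl | rfl⟩ := hin
    · exfalso
      by_cases hi : i = 1
      · subst hi; exact hw.1.ne rfl
      · have h3 := h.lk (i - 1) (by omega) (by omega)
        rw [show i - 1 + 1 = i by omega] at h3
        exact h.xy 1 (i - 1) le_rfl h.pos (by omega) (by omega) (hw.symm.unique hG h3.symm)
    · by_cases hi : i = k
      · subst hi; exact hw.symm
      · exfalso
        have h3 := h.lk i h1 (by omega)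
        have := h.injx 1 (i + 1) le_rfl h.pos (by omega) (by omega) (hw.symm.unique hG h3)
        omega
  · right
    obtain ⟨w', hw'⟩ := hw.2.2
    have hin' : ¬ InC k x y w' := fun h' => hin (h.mate hG h' hw'.symm)
    refine ⟨fun i => if i = 1 then w' else x (i - 1), fun i => if i = 1 then w else y (i - 1),
      ⟨by omega, ?_, ?_, ?_, ?_, ?_⟩, ?_⟩
    · intro i h1 h2
      by_cases hi : i = 1
      · simp only [hi, if_true]; exact hw'.symm
      · simp only [hi, if_false]; exact h.me (i - 1) (by omega) (by omega)
    · intro i h1 h2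
      have hi' : ¬ (i + 1 = 1) := by omega
      by_cases hi : i = 1
      · subst hi
        simp only [if_true, hi', if_false, Nat.add_sub_cancel]; exact hw.symm
      · simp only [hi, hi', if_false]
        have := h.lk (i - 1) (by omega) (by omega)
        rw [show i + 1 - 1 = i - 1 + 1 by omega]; exact this
    · intro i j h1 h2 h3 h4 h5
      by_cases hi : i = 1 <;> by_cases hj : j = 1
      · omega
      · simp only [hi, hj, if_true, if_false] at h5
        exact absurd (h5 ▸ InC.x (by omega) (by omega)) hin'
      · simp only [hi, hj, if_true, if_false] at h5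
        exact absurd (h5 ▸ InC.x (by omega) (by omega)) hin'
      · simp only [hi, hj, if_false] at h5
        have := h.injx (i - 1) (j - 1) (by omega) (by omega) (by omega) (by omega) h5
        omega
    · intro i j h1 h2 h3 h4 h5
      by_cases hi : i = 1 <;> by_cases hj : j = 1
      · omega
      · simp only [hi, hj, if_true, if_false] at h5
        exact absurd (h5 ▸ InC.y (by omega) (by omega)) hin
      · simp only [hi, hj, if_true, if_false] at h5
        exact absurd (h5 ▸ InC.y (by omega) (by omega)) hin
      · simp only [hi, hj, if_false] at h5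
        have := h.injy (i - 1) (j - 1) (by omega) (by omega) (by omega) (by omega) h5
        omega
    · intro i j h1 h2 h3 h4 h5
      by_cases hi : i = 1 <;> by_cases hj : j = 1
      · simp only [hi, hj, if_true] at h5
        exact hw'.ne h5.symm
      · simp only [hi, hj, if_true, if_false] at h5
        exact hin' (h5 ▸ InC.y (by omega) (by omega))
      · simp only [hi, hj, if_true, if_false] at h5
        exact hin (h5 ▸ InC.x (by omega) (by omega))
      · simp only [hi, hj, if_false] at h5
        exact h.xy (i - 1) (j - 1) (by omega) (by omega) (by omega) (by omega) h5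
    · rintro u ⟨i, h1, h2, hu⟩
      refine ⟨i + 1, by omega, by omega, ?_⟩
      have hi' : ¬ (i + 1 = 1) := by omega
      simp only [hi', if_false, Nat.add_sub_cancel]
      exact hu

/-- A link starts a chain of two units. -/
lemma chn_of_link [Fintype V] (hG : ClassC G R) {u v : V} (h : Lk G R u v) :
    ∃ x y, Chn G R 2 x y ∧ InC 2 x y u := by
  obtain ⟨u', hu⟩ := h.2.1
  obtain ⟨v', hv⟩ := h.2.2
  have huv := h.1.ne
  have n1 : u' ≠ v := by
    rintro rfl; exact h.1.2 hu.2
  have n2 : u ≠ v' := by
    rintro rfl; exact h.1.2 hv.2.symm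
  have n3 : u' ≠ v' := by
    rintro rfl; exact huv (hG.matching hu.symm hv.symm)
  have n4 := hu.ne
  have n5 := hv.ne
  refine ⟨fun i => if i = 1 then u' else v, fun i => if i = 1 then u else v',
    ⟨by omega, ?_, ?_, ?_, ?_, ?_⟩, ?_⟩
  · intro i h1 h2
    by_cases hi : i = 1
    · simp only [hi, if_true]; exact hu.symm
    · simp only [hi, if_false]; exact hv
  · intro i h1 h2
    have hi : i = 1 := by omega
    subst hi
    simpa using h
  · intro i j h1 h2 h3 h4 h5
    by_cases hi : i = 1 <;> by_cases hj : j = 1
    · omega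
    · simp only [hi, hj, if_true, if_false] at h5; exact absurd h5 n1
    · simp only [hi, hj, if_true, if_false] at h5; exact absurd h5.symm n1
    · omega
  · intro i j h1 h2 h3 h4 h5
    by_cases hi : i = 1 <;> by_cases hj : j = 1
    · omega
    · simp only [hi, hj, if_true, if_false] at h5; exact absurd h5 n2
    · simp only [hi, hj, if_true, if_false] at h5; exact absurd h5.symm n2
    · omega
  · intro i j h1 h2 h3 h4 h5
    by_cases hi : i = 1 <;> by_cases hj : j = 1
    · simp only [hi, hj, if_true] at h5; exact n4 h5.symm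
    · simp only [hi, hj, if_true, if_false] at h5; exact n3 h5
    · simp only [hi, hj, if_true, if_false] at h5; exact huv h5.symm
    · simp only [hi, hj, if_false] at h5; exact n5 h5
  · exact ⟨1, le_rfl, by omega, Or.inr rfl⟩

/-- Every link lies on a chain with at least two units which is closed or has unlinked ends. -/
theorem exists_chain [Fintype V] (hG : ClassC G R) {u v : V} (h : Lk G R u v) :
    ∃ k x y, 2 ≤ k ∧ Chn G R k x y ∧ InC k x y u ∧
      (Lk G R (y k) (x 1) ∨ ((∀ w, ¬ Lk G R (x 1) w) ∧ ∀ w, ¬ Lk G R (y k) w)) := by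
  have hb : ∀ k, (∃ x y, Chn G R k x y ∧ InC k x y u) → k ≤ Fintype.card V := by
    rintro k ⟨x, y, hxy, -⟩; exact hxy.card_le
  set k := Nat.findGreatest (fun k => ∃ x y, Chn G R k x y ∧ InC k x y u) (Fintype.card V) with hk
  have h2 := chn_of_link hG h
  have hP : ∃ x y, Chn G R k x y ∧ InC k x y u :=
    Nat.findGreatest_spec (P := fun k => ∃ x y, Chn G R k x y ∧ InC k x y u) (hb 2 h2) h2
  have hk2 : 2 ≤ k := Nat.le_findGreatest (hb 2 h2) h2
  have hno : ∀ x y, Chn G R (k + 1) x y → ¬ InC (k + 1) x y u := by
    intro x y hxy hu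
    have : k + 1 ≤ k := Nat.le_findGreatest (P := fun k => ∃ x y, Chn G R k x y ∧ InC k x y u)
      (hb _ ⟨x, y, hxy, hu⟩) ⟨x, y, hxy, hu⟩
    omega
  obtain ⟨x, y, hxy, hu⟩ := hP
  refine ⟨k, x, y, hk2, hxy, hu, ?_⟩
  by_cases hcl : Lk G R (y k) (x 1)
  · exact Or.inl hcl
  · right
    constructor
    · intro w hw
      rcases extL hxy hG hw with h | ⟨x', y', h, h'⟩
      · exact hcl h
      · exact hno _ _ h (h' u hu)
    · intro w hw
      have hr := hxy.rev
      have hur : InC k (fun i => y (k + 1 - i)) (fun i => x (k + 1 - i)) u := by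
        obtain ⟨i, h1, h2, h3⟩ := hu
        refine ⟨k + 1 - i, by omega, by omega, ?_⟩
        have e : k + 1 - (k + 1 - i) = i := by omega
        simp only [e]
        exact h3.symm
      have hw' : Lk G R ((fun i => y (k + 1 - i)) 1) w := by
        show Lk G R (y (k + 1 - 1)) w
        rw [Nat.add_sub_cancel]; exact hw
      rcases extL hr hG hw' with h | ⟨x', y', h, h'⟩
      · apply hcl
        have e1 : k + 1 - k = 1 := by omega
        simp only [e1, Nat.add_sub_cancel] at h
        exact h.symm
      · exact hno _ _ h (h' u hur)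

/-- Module S3. -/
theorem thr : ThrH := by
  intro hO V _ G H R hR hG hle hc u v huv
  have hH := hG.mono hle
  obtain ⟨k, x, y, hk, hch, hu, h⟩ := exists_chain hH huv
  rcases h with h | ⟨h1, h2⟩
  · obtain ⟨X, Y, hcc, hXY⟩ := exists_cc hch hk h
    refine ⟨k, X, Y, hcc, ?_⟩
    obtain ⟨i, h3, h4, h5⟩ := hu
    refine ⟨i, ?_⟩
    rw [(hXY i h3 h4).1, (hXY i h3 h4).2]
    exact h5
  · exact (hO V G H R k x y hR hG hle hc hch hk h1 h2).elim

end CLB.H86.H7
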